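import Pool.Agent.Run7.h601.ExtForm

set_option autoImplicit false

/-!
# Annihilators of generic odd-degree forms in the exterior algebra: the conjecture is false

For odd `d` and odd `r < d` the product `(g, h) ↦ f ∧ g ∧ h` is an alternating form on the forms of
degree `r` in `n = d + 2 r` variables. If the binomial coefficient `n` over `r` is odd, it is
degenerate, so `τ_{n,d}` has a positive coefficient at `t ^ r`. The conjectured value has this
coefficient only for `r = 1` and `r = 3`. The first counterexample is `n = 21`, `d = 11`, `r = 5`.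
-/

namespace Pool.Agent.Results.MP_071b90_al.ParityCounterexample

open Module Pool.Agent.Run7.h601.ExtForm

universe u

/-- the exterior algebra of `K ^ n` -/
abbrev Ext (K : Type u) [Field K] (n : ℕ) : Type u := ExteriorAlgebra K (Fin n → K)

/-- the forms of degree `r` in `n` variables -/
noncomputable def deg (K : Type u) [Field K] (n r : ℕ) : Submodule K (Ext K n) :=
  ⋀[K]^r (Fin n → K)

/-- the basis of the monomials `x_S` -/
noncomputable def basis (K : Type u) [Field K] (n : ℕ) : Basis (Finset (Fin n)) K (Ext K n) :=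
  (Pi.basisFun K (Fin n)).ExteriorAlgebra

section general

variable {K : Type u} [Field K] {A : Type u} [Ring A] [Algebra K A]

/-- the coefficient `c_S` of `f` with respect to a basis -/
noncomputable def coeff {I : Type} (b : Basis I K A) (f : A) (S : I) : K := b.repr f S

/-- `ann (f) = {g : g f = 0}` -/
noncomputable def ann (f : A) : Submodule K A := LinearMap.ker (LinearMap.mulRight K f)

/-- the principal (two-sided) ideal `(f)` -/
noncomputable def principal (f : A) : Submodule K A :=
  Submodule.span K {x | ∃ a b, x = a * f * b}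

/-- the coefficient at `t ^ r` of the Hilbert series of `M`, for the grading `G` -/
noncomputable def hilb (G : ℕ → Submodule K A) (M : Submodule K A) (r : ℕ) : ℕ :=
  finrank K ↥(M ⊓ G r)

end general

/-- the coefficients at the monomials of degree `d` are pairwise distinct, lie outside `ℚ` and are
algebraically independent over `ℚ` -/
structure GenericCoeffs {K : Type u} [Field K] [CharZero K] {n : ℕ} (d : ℕ)
    (c : Finset (Fin n) → K) : Prop where
  distinct : ∀ S T : Finset (Fin n), S.card = d → T.card = d → c S = c T → S = T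
  irrational : ∀ S : Finset (Fin n), S.card = d → ∀ q : ℚ, c S ≠ (q : K)
  indep : AlgebraicIndependent ℚ (fun S : {S : Finset (Fin n) // S.card = d} => c S.1)

/-- `f` is a generic form of degree `d` in `n` variables -/
def IsGeneric {K : Type u} [Field K] [CharZero K] {n : ℕ} (d : ℕ) (f : Ext K n) : Prop :=
  f ∈ deg K n d ∧ GenericCoeffs d (coeff (basis K n) f)

/-- the coefficient at `t ^ r` of `Δ_{n,d}` -/
def delta (n d r : ℕ) : ℤ :=
  if (n - d + 1) / 2 ≤ r ∧ r ≤ n then (n.choose r : ℤ) - (n.choose (r + d) : ℤ) else 0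

/-- the coefficient at `t ^ r` of `τ_{n,d}`, for a form `f` of degree `d` in `n` variables -/
noncomputable def tau {K : Type u} [Field K] {n : ℕ} (d : ℕ) (f : Ext K n) (r : ℕ) : ℤ :=
  (hilb (deg K n) (ann f) r : ℤ) - max (hilb (deg K n) (principal f) r : ℤ) (delta n d r)

open Classical in
/-- the coefficient at `t ^ r` of the conjectured value of `τ_{n,d}` -/
noncomputable def conjectured (n d r : ℕ) : ℤ :=
  if ∃ v s : ℤ, 1 ≤ v ∧ 0 ≤ s ∧ (n : ℤ) - d = (v ^ 2 + 5 * v) / 2 - 1 ∧ (d : ℤ) = 5 + 2 * v * s ∧
    (r : ℤ) = v * (v + 1) / 2 then 1 else 0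

theorem low {K : Type u} [Field K] {n d : ℕ} {f : ExteriorAlgebra K (Fin n → K)}
    (hf : f ∈ ⋀[K]^d (Fin n → K)) (a b : ExteriorAlgebra K (Fin n → K)) {U : Finset (Fin n)}
    (hU : U.card < d) : (mono K n).repr (a * f * b) U = 0 := by
  have h1 : ∀ (T : Finset (Fin n)) (a : ExteriorAlgebra K (Fin n → K)),
      (mono K n).repr (a * f * mono K n T) U = 0 := by
    intro T a
    have h : ((mono K n).coord U) ∘ₗ (LinearMap.mulRight K (mono K n T)) ∘ₗ
        (LinearMap.mulRight K f) = 0 := by
      refine (mono K n).ext fun S => ?_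
      simp only [LinearMap.comp_apply, LinearMap.mulRight_apply, Basis.coord_apply,
        LinearMap.zero_apply]
      have hm : mono K n S * f * mono K n T ∈ ⋀[K]^(S.card + d + T.card) (Fin n → K) :=
        SetLike.GradedMul.mul_mem (SetLike.GradedMul.mul_mem (mono_mem rfl) hf) (mono_mem rfl)
      exact repr_eq_zero hm (by omega)
    exact LinearMap.congr_fun h a
  have h : ((mono K n).coord U) ∘ₗ (LinearMap.mulLeft K (a * f)) = 0 := by
    refine (mono K n).ext fun T => ?_
    simp only [LinearMap.comp_apply, LinearMap.mulLeft_apply, Basis.coord_apply,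
      LinearMap.zero_apply]
    exact h1 T a
  exact LinearMap.congr_fun h b

/-- the principal ideal has no elements of degree below the degree of the generator -/
theorem hilb_principal {K : Type u} [Field K] {n d r : ℕ} {f : Ext K n}
    (hf : f ∈ deg K n d) (hr : r < d) : hilb (deg K n) (principal f) r = 0 := by
  have h : principal f ⊓ deg K n r = ⊥ := by
    rw [eq_bot_iff]
    rintro x ⟨hx, hxr⟩
    rw [Submodule.mem_bot]
    refine eq_zero_of_repr (K := K) (n := n) (x := x) hxr fun S hS => ?_
    have h2 : principal f ≤ LinearMap.ker ((basis K n).coord S) := by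
      rw [principal, Submodule.span_le]
      rintro _ ⟨a, b, rfl⟩
      exact low (K := K) (n := n) hf a b (by omega)
    exact h2 hx
  rw [hilb, h]
  exact finrank_bot K _

theorem one_le_tau {K : Type u} [Field K] [CharZero K] {d r : ℕ} (hd : Odd d) (hr : Odd r)
    (hrd : r < d) (hodd : Odd ((d + 2 * r).choose r))
    {f : Ext K (d + 2 * r)} (hf : f ∈ deg K (d + 2 * r) d) :
    1 ≤ tau d f r := by
  have : Module.Finite K (Ext K (d + 2 * r)) := Module.Finite.of_basis (basis K (d + 2 * r))
  obtain ⟨g, hg, hg0, hgf⟩ := exists_ann (K := K) rfl hd hr hodd hf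
  have h1 : 1 ≤ hilb (deg K (d + 2 * r)) (ann f) r := by
    rw [hilb, Submodule.one_le_finrank_iff, Submodule.ne_bot_iff]
    exact ⟨g, ⟨hgf, hg⟩, hg0⟩
  have h2 : delta (d + 2 * r) d r = 0 := by
    unfold delta
    rw [if_pos (by omega), sub_eq_zero, Nat.cast_inj]
    exact (Nat.choose_symm_of_eq_add (by omega)).symm
  unfold tau
  rw [hilb_principal hf hrd, h2]
  simp only [Nat.cast_zero, max_self, sub_zero]
  exact_mod_cast h1

theorem conjectured_eq_zero {d r : ℕ} (hr : 5 ≤ r) : conjectured (d + 2 * r) d r = 0 := by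
  unfold conjectured
  rw [if_neg]
  rintro ⟨v, s, hv, hs, h1, h2, h3⟩
  push_cast at h1
  obtain ⟨k, hk⟩ : Even (v * (v + 1)) := Int.even_mul_succ_self v
  have h4 : v ^ 2 + 5 * v = 2 * (k + 2 * v) := by linear_combination hk
  rw [h4, Int.mul_ediv_cancel_left _ (by norm_num)] at h1
  rw [hk, ← two_mul, Int.mul_ediv_cancel_left _ (by norm_num)] at h3
  have h5 : (v - 1) * (v - 2) = 0 := by
    have : k = 2 * v - 1 := by omega
    rw [this] at hk
    linear_combination hk
  rcases mul_eq_zero.1 h5 with h | h
  · have : v = 1 := by omega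
    subst this
    omega
  · have : v = 2 := by omega
    subst this
    omega

theorem conjectured_ten {n d : ℕ} (h : n = d + 10) (r : ℕ) : conjectured n d r = 0 := by
  subst h
  unfold conjectured
  rw [if_neg]
  rintro ⟨v, s, hv, hs, h1, h2, h3⟩
  push_cast at h1
  have h4 : (v ^ 2 + 5 * v) / 2 = 11 := by omega
  rcases lt_or_ge v 3 with hv3 | hv3
  · interval_cases v <;> norm_num at h4
  · have : 24 ≤ v ^ 2 + 5 * v := by nlinarith
    omega

theorem odd_of_eq {c q : ℕ} (h : 8 * q = 120 * c) (hq : Odd q) : Odd c := by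
  have h2 : q = 15 * c := by omega
  rw [h2] at hq
  exact (Nat.odd_mul.1 hq).2

theorem choose_five (n : ℕ) :
    (n + 4) * (n + 3) * (n + 2) * (n + 1) * n = 120 * (n + 4).choose 5 := by
  have h := Nat.descFactorial_eq_factorial_mul_choose (n + 4) 5
  simp only [Nat.descFactorial, Nat.factorial, Nat.sub_zero, mul_one] at h
  rw [show n + 4 - 4 = n by omega, show n + 4 - 3 = n + 1 by omega,
    show n + 4 - 2 = n + 2 by omega, show n + 4 - 1 = n + 3 by omega] at h
  linarith [h]

theorem odd_choose (m : ℕ) : Odd ((8 * m + 21).choose 5) := by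
  refine odd_of_eq
    (q := (8 * m + 21) * (2 * m + 5) * (8 * m + 19) * (4 * m + 9) * (8 * m + 17)) ?_ ?_
  · rw [← choose_five (8 * m + 17)]
    ring
  · refine ((((Nat.odd_iff.2 ?_).mul (Nat.odd_iff.2 ?_)).mul (Nat.odd_iff.2 ?_)).mul
      (Nat.odd_iff.2 ?_)).mul (Nat.odd_iff.2 ?_) <;> omega

/-- generic forms exist over the complex numbers -/
theorem exists_generic (n d : ℕ) :
    ∃ f : Ext ℂ n, IsGeneric d f := by
  classical
  obtain ⟨ι, x, hx⟩ := exists_isTranscendenceBasis' ℚ ℂ
  have hι : Infinite ι := by
    have h := IsAlgClosed.cardinal_eq_cardinal_transcendence_basis_of_aleph0_lt' x hx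
      (by simp) (by rw [Cardinal.mk_complex]; exact Cardinal.aleph0_lt_continuum)
    rw [Cardinal.mk_complex] at h
    rw [← Cardinal.aleph0_le_mk_iff, ← h]
    exact Cardinal.aleph0_le_continuum
  let e : {S : Finset (Fin n) // S.card = d} ↪ ι :=
    (Fintype.equivFin _).toEmbedding.trans ((Fin.valEmbedding).trans (Infinite.natEmbedding ι))
  have hind : AlgebraicIndependent ℚ (fun S => x (e S)) := hx.1.comp e e.injective
  let c : Finset (Fin n) → ℂ := fun S => if h : S.card = d then x (e ⟨S, h⟩) else 0
  let f : Ext ℂ n := ∑ S : {S : Finset (Fin n) // S.card = d}, c S.1 • basis ℂ n S.1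
  have hc : ∀ S : {S : Finset (Fin n) // S.card = d},
      coeff (basis ℂ n) f S.1 = x (e S) := by
    intro S
    change (basis ℂ n).repr f S.1 = _
    simp only [f, map_sum, map_smul, Basis.repr_self, Finsupp.smul_single, smul_eq_mul, mul_one,
      Finsupp.coe_finsetSum, Finset.sum_apply]
    rw [Finset.sum_eq_single S]
    · rw [Finsupp.single_eq_same]
      simp only [c, S.2, dif_pos]
    · intro T _ hT
      rw [Finsupp.single_eq_of_ne]
      intro h
      exact hT (Subtype.ext h.symm)
    · intro h
      exact absurd (Finset.mem_univ _) h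
  refine ⟨f, Submodule.sum_mem _ fun S _ => Submodule.smul_mem _ _ (mono_mem S.2), ?_, ?_, ?_⟩
  · intro S T hS hT h
    rw [hc ⟨S, hS⟩, hc ⟨T, hT⟩] at h
    exact congrArg Subtype.val (hind.injective h)
  · intro S hS q h
    rw [hc ⟨S, hS⟩] at h
    have h2 := hind.transcendental ⟨S, hS⟩
    exact h2 (h ▸ isAlgebraic_algebraMap q)
  · have h : (fun S : {S : Finset (Fin n) // S.card = d} => coeff (basis ℂ n) f S.1) =
        fun S => x (e S) :=
      funext hc
    rw [h]
    exact hind

/-- every form of degree `d` in `n` variables has a positive coefficient of `τ` at `t ^ r`, while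
the conjectured value of `τ_{n,d}` has the coefficient `0` there -/
def FailsAt (K : Type u) [Field K] (n d r : ℕ) : Prop :=
  ∀ f : Ext K n, f ∈ deg K n d → 1 ≤ tau d f r ∧ conjectured n d r = 0

/-- the conjecture, for generic forms with complex coefficients -/
def Conjecture : Prop :=
  ∀ n d : ℕ, Odd d → 3 < d → d ≤ n → ∀ f : Ext ℂ n, IsGeneric d f →
    ∀ r, tau d f r = conjectured n d r

/-- The conjectured value of `τ_{n,d}` is wrong. -/
theorem result :
    -- an obstruction for every form, of every degree
    (∀ (K : Type u) [Field K] [CharZero K] (d r : ℕ), Odd d → Odd r → 5 ≤ r → r < d →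
      Odd ((d + 2 * r).choose r) → FailsAt K (d + 2 * r) d r) ∧
    -- infinitely many counterexamples with `n - d = 10`, the first one being `n = 21`, `d = 11`
    (∀ (K : Type u) [Field K] [CharZero K] (m : ℕ), FailsAt K (8 * m + 21) (8 * m + 11) 5) ∧
    -- generic forms exist over the complex numbers
    (∀ n d : ℕ, ∃ f : Ext ℂ n, IsGeneric d f) ∧
    -- the conjecture is false
    ¬ Conjecture := by
  refine ⟨fun K _ _ d r hd hr h5 hrd ho f hf => ⟨one_le_tau hd hr hrd ho hf,
    conjectured_eq_zero h5⟩, ?_, exists_generic, ?_⟩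
  · intro K _ _ m f hf
    refine ⟨?_, conjectured_ten (by omega) 5⟩
    exact one_le_tau (d := 8 * m + 11) (r := 5) (Nat.odd_iff.2 (by omega)) (by decide) (by omega)
      (odd_choose m) hf
  · intro h
    obtain ⟨f, hf⟩ := exists_generic 21 11
    have h1 := h 21 11 (by decide) (by norm_num) (by norm_num) f hf 5
    rw [conjectured_ten (by norm_num)] at h1
    have h2 : 1 ≤ tau 11 f 5 := one_le_tau (d := 11) (r := 5) (by decide) (by decide)
      (by norm_num) (odd_choose 0) hf.1
    omega

end Pool.Agent.Results.MP_071b90_al.ParityCounterexample
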